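import Pool.Agent.H85.ALLH.PIG

set_option autoImplicit false

namespace Pool.ALLH

open Finset Pool.Agent.H98.ABCR Pool.SHA

lemma alg_third (i s1 : Fin 3) (h : s1 ≠ i) :
    ∃ s2 : Fin 3, s2 ≠ i ∧ s2 ≠ s1 ∧ ∀ s, s = i ∨ s = s1 ∨ s = s2 := by
  revert i s1
  decide

lemma alg_cop (v : ℕ × ℕ) (hv : IsTri v) (s s' : Fin 3) (h : s ≠ s') :
    Nat.Coprime (coord v s) (coord v s') := by
  obtain ⟨h1, h2, h3⟩ := hv
  have h4 : Nat.Coprime v.1 (v.1 + v.2) := by
    rw [Nat.coprime_self_add_right]; exact h3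
  have h5 : Nat.Coprime v.2 (v.1 + v.2) := by
    rw [Nat.coprime_add_self_right]; exact h3.symm
  fin_cases s <;> fin_cases s' <;> simp [coord] at h ⊢
  · exact h3
  · exact h3
  · exact h3.symm
  · exact h3.symm
  · exact h3.symm
  · exact h3

lemma alg_pos (v : ℕ × ℕ) (hv : IsTri v) (s : Fin 3) : 0 < coord v s := by
  obtain ⟨h1, h2, h3⟩ := hv
  fin_cases s <;> simp [coord] <;> omega

lemma alg_le (v : ℕ × ℕ) (s : Fin 3) : coord v s ≤ v.1 + v.2 := by
  fin_cases s <;> simp [coord]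

/-- the sign -/
def alg_sg (i : Fin 3) : ℤ := if i = 2 then -1 else 1

lemma alg_rel (v : ℕ × ℕ) (i s1 s2 : Fin 3) (h1 : s1 ≠ i) (h2 : s2 ≠ i) (h3 : s2 ≠ s1) :
    (coord v i : ℤ) ∣ (coord v s1 : ℤ) - alg_sg i * (coord v s2 : ℤ) := by
  fin_cases i <;> fin_cases s1 <;> fin_cases s2 <;> simp [coord, alg_sg] at h1 h2 h3 ⊢
  exact dvd_of_eq (add_comm _ _)

lemma alg_factor (K' : Finset ℕ) (n r : ℕ) (hn : n ≠ 0) (hr : r ∉ K')
    (hs : n.primeFactors ⊆ insert r K') :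
    n = r ^ n.factorization r * ∏ q ∈ K', q ^ n.factorization q := by
  have h1 : n = ∏ q ∈ insert r K', q ^ n.factorization q := by
    conv_lhs => rw [← Nat.prod_factorization_pow_eq_self hn]
    apply Finsupp.prod_of_support_subset
    · rw [Nat.support_factorization]; exact hs
    · intro q _
      exact pow_zero q
  rw [Finset.prod_insert hr] at h1
  exact h1

lemma alg_factor2 (K' : Finset ℕ) (n : ℕ) (hn : n ≠ 0)
    (hs : n.primeFactors ⊆ K') :
    n = ∏ q ∈ K', q ^ n.factorization q := by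
  conv_lhs => rw [← Nat.prod_factorization_pow_eq_self hn]
  apply Finsupp.prod_of_support_subset
  · rw [Nat.support_factorization]; exact hs
  · intro q _
    exact pow_zero q

lemma alg_modEq (n : ℤ) (D : Finset ℕ) (F G : ℕ → ℤ) (s : ℤ)
    (h : ∀ r ∈ D, n ∣ F r - s * G r) :
    n ∣ ∏ r ∈ D, F r - s ^ D.card * ∏ r ∈ D, G r := by
  classical
  induction D using Finset.induction_on with
  | empty => simp
  | insert a D ha ih =>
    rw [Finset.prod_insert ha, Finset.prod_insert ha, Finset.card_insert_of_notMem ha]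
    have h1 := h a (Finset.mem_insert_self _ _)
    have h2 := ih (fun r hr => h r (Finset.mem_insert_of_mem hr))
    have : F a * ∏ r ∈ D, F r - s ^ (D.card + 1) * (G a * ∏ r ∈ D, G r) =
        (F a - s * G a) * ∏ r ∈ D, F r + s * G a * (∏ r ∈ D, F r - s ^ D.card * ∏ r ∈ D, G r) := by
      ring
    rw [this]
    exact dvd_add (Dvd.dvd.mul_right h1 _) (Dvd.dvd.mul_left h2 _)

lemma alg_prod_le (D : Finset ℕ) (f : ℕ → ℝ) (B : ℝ) (h0 : ∀ r ∈ D, 0 ≤ f r)
    (h : ∀ r ∈ D, f r ≤ B) : ∏ r ∈ D, f r ≤ B ^ D.card := by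
  calc ∏ r ∈ D, f r ≤ ∏ _r ∈ D, B := Finset.prod_le_prod h0 h
    _ = B ^ D.card := by rw [Finset.prod_const]

/-- the product `∏ r ^ ζ ∏ q ^ n` determines the set of the `r` -/
lemma alg_ne (J : ℕ) (K' : Finset ℕ) (r ζ : ℕ → ℕ) (hr : ∀ j < J, (r j).Prime ∧ r j ∉ K')
    (hK : ∀ q ∈ K', q.Prime) (hinj : ∀ j < J, ∀ j' < J, r j = r j' → j = j')
    (A B : Finset ℕ) (hA : A ⊆ range J) (hB : B ⊆ range J) (hAB : Disjoint A B)
    (hne : A.Nonempty) (hζ : ∀ j < J, 1 ≤ ζ j) (f f' : ℕ → ℕ) :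
    (∏ j ∈ A, r j ^ ζ j) * ∏ q ∈ K', q ^ f q ≠ (∏ j ∈ B, r j ^ ζ j) * ∏ q ∈ K', q ^ f' q := by
  intro heq
  obtain ⟨j, hj⟩ := hne
  have hjJ := Finset.mem_range.mp (hA hj)
  obtain ⟨hrp, hrK⟩ := hr j hjJ
  have h5 : r j ∣ (∏ j ∈ A, r j ^ ζ j) * ∏ q ∈ K', q ^ f q := by
    apply Dvd.dvd.mul_right
    exact (dvd_pow_self (r j) (by have := hζ j hjJ; omega)).trans
      (Finset.dvd_prod_of_mem (fun j => r j ^ ζ j) hj)
  rw [heq] at h5
  rcases (Nat.Prime.dvd_mul hrp).mp h5 with h6 | h6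
  · obtain ⟨k, hk, hrk⟩ := (Prime.dvd_finsetProd_iff hrp.prime _).mp h6
    have h7 := hrp.dvd_of_dvd_pow hrk
    have hkJ := Finset.mem_range.mp (hB hk)
    have h8 : r j = r k := (Nat.prime_dvd_prime_iff_eq hrp (hr k hkJ).1).mp h7
    have h9 := hinj j hjJ k hkJ h8
    rw [← h9] at hk
    exact Finset.disjoint_left.mp hAB hj hk
  · obtain ⟨k, hk, hrk⟩ := (Prime.dvd_finsetProd_iff hrp.prime _).mp h6
    have h7 := hrp.dvd_of_dvd_pow hrk
    have h8 : r j = k := (Nat.prime_dvd_prime_iff_eq hrp (hK k hk)).mp h7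
    rw [← h8] at hk
    exact hrK hk

theorem alg_thm (h1 : S_PIG) (h2 : S_IDN) : S_ALG := by
  classical
  intro J g z0 K T x m i s1 r v h0 L hg hK hTK hx hall hinj hlt
  have hT : ∀ t ∈ T, t.Prime := fun t ht => hK t (hTK ht)
  set K' : Finset ℕ := K \ T with hK'
  have hK'K : K' ⊆ K := Finset.sdiff_subset
  have hK'p : ∀ q ∈ K', q.Prime := fun q hq => hK q (hK'K hq)
  have hJpos : 0 < J := by
    rcases Nat.eq_zero_or_pos J with h | h
    · exfalso
      rw [h, pow_zero] at hlt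
      have h3 : 0 < g ^ K.card := pow_pos hg _
      have h4 : 0 < ∏ t ∈ T, t ^ (m t + 1) := Finset.prod_pos (fun t ht => pow_pos (hT t ht).pos _)
      have h5 : 0 < g ^ K.card * ∏ t ∈ T, t ^ (m t + 1) := Nat.mul_pos h3 h4
      have h6 : 2 * g ^ K.card * ∏ t ∈ T, t ^ (m t + 1) = 2 * (g ^ K.card * ∏ t ∈ T, t ^ (m t + 1)) := by
        ring
      omega
    · exact h
  have hs1i : s1 ≠ i := (hall 0 hJpos).2.2.2.1.si
  obtain ⟨s2, hs2i, hs21, -⟩ := alg_third i s1 hs1i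
  -- data of the solutions
  set c1 : ℕ → ℕ := fun j => coord (v j) s1 with hc1
  set c2 : ℕ → ℕ := fun j => coord (v j) s2 with hc2
  set β : ℕ → ℕ → ℕ := fun j q => (c1 j).factorization q with hβ
  set γ : ℕ → ℕ → ℕ := fun j q => (c2 j).factorization q with hγ
  set ζ : ℕ → ℕ := fun j => (c1 j).factorization (r j) / g with hζ
  have hsol : ∀ j < J, SolV h0 K x i s1 (r j) (v j) := fun j hj => (hall j hj).2.2.2.1
  have hc1pos : ∀ j < J, 0 < c1 j := fun j hj => alg_pos _ (hsol j hj).tri _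
  have hc2pos : ∀ j < J, 0 < c2 j := fun j hj => alg_pos _ (hsol j hj).tri _
  have hrT : ∀ j < J, ∀ t ∈ T, ¬ t ∣ r j := by
    intro j hj t ht hd
    have h3 := (Nat.prime_dvd_prime_iff_eq (hT t ht) (hall j hj).1).mp hd
    exact (hall j hj).2.1 (h3 ▸ hTK ht)
  have hK'T : ∀ t ∈ T, ∀ q ∈ K', ¬ t ∣ q := by
    intro t ht q hq hd
    have h3 := (Nat.prime_dvd_prime_iff_eq (hT t ht) (hK'p q hq)).mp hd
    rw [hK', Finset.mem_sdiff] at hq
    exact hq.2 (h3 ▸ ht)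
  have htc : ∀ j < J, ∀ t ∈ T, ∀ s, s ≠ i → ¬ t ∣ coord (v j) s := by
    intro j hj t ht s hs hd
    have h3 : t ∣ coord (v j) i := by
      have h4 := (hsol j hj).dx t (hTK ht)
      exact (dvd_pow_self t (by have := hx t ht; omega)).trans h4
    have h5 := alg_cop (v j) (hsol j hj).tri s i hs
    have h6 := Nat.dvd_gcd hd h3
    rw [h5] at h6
    exact (hT t ht).one_lt.ne' (Nat.dvd_one.mp h6)
  have hpf : ∀ j < J, ∀ s, s ≠ i → (coord (v j) s).primeFactors ⊆ insert (r j) K' := by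
    intro j hj s hs q hq
    have h3 := (hsol j hj).pf s hs hq
    rw [Finset.mem_insert] at h3 ⊢
    rcases h3 with h3 | h3
    · left; exact h3
    · right
      rw [hK', Finset.mem_sdiff]
      exact ⟨h3, fun h => htc j hj q h s hs (Nat.dvd_of_mem_primeFactors hq)⟩
  have hrK' : ∀ j < J, r j ∉ K' := fun j hj h => (hall j hj).2.1 (hK'K h)
  have hrc2 : ∀ j < J, ¬ r j ∣ c2 j := by
    intro j hj hd
    have h5 := alg_cop (v j) (hsol j hj).tri s1 s2 hs21.symm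
    have h6 := Nat.dvd_gcd (hsol j hj).dv hd
    rw [h5] at h6
    exact (hall j hj).1.one_lt.ne' (Nat.dvd_one.mp h6)
  have hc1eq : ∀ j < J, c1 j = r j ^ (z0 + g * ζ j) * ∏ q ∈ K', q ^ β j q := by
    intro j hj
    have h3 := alg_factor K' (c1 j) (r j) (hc1pos j hj).ne' (hrK' j hj) (hpf j hj s1 hs1i)
    have h4 : (c1 j).factorization (r j) = z0 + g * ζ j := by
      have h5 := (hall j hj).2.2.2.2
      have h6 := Nat.mod_add_div ((c1 j).factorization (r j)) g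
      simp only [hζ]
      rw [← h5]
      exact h6.symm
    rw [h4] at h3
    exact h3
  have hc2eq : ∀ j < J, c2 j = ∏ q ∈ K', q ^ γ j q := by
    intro j hj
    apply alg_factor2 K' (c2 j) (hc2pos j hj).ne'
    intro q hq
    have h3 := hpf j hj s2 hs2i hq
    rw [Finset.mem_insert] at h3
    rcases h3 with h3 | h3
    · exact absurd (h3 ▸ Nat.dvd_of_mem_primeFactors hq) (hrc2 j hj)
    · exact h3
  have hlt' : 2 * g ^ K'.card * ∏ t ∈ T, t ^ (m t + 1) < 2 ^ J := by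
    refine lt_of_le_of_lt ?_ hlt
    apply Nat.mul_le_mul_right
    apply Nat.mul_le_mul_left
    exact Nat.pow_le_pow_right hg (Finset.card_le_card hK'K)
  obtain ⟨A, B, n, hA, hB, hAB, hne, heven, hcr, hexp, hcw⟩ := h1 J g K' T m r ζ
    (fun j q => (γ j q : ℤ) - β j q) hg hT (fun t ht j hj => hrT j hj t ht) hK'T hlt'
  have hAJ : ∀ j ∈ A, j < J := fun j hj => Finset.mem_range.mp (hA hj)
  have hBJ : ∀ j ∈ B, j < J := fun j hj => Finset.mem_range.mp (hB hj)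
  have hid := h2 g z0 K' A B r ζ β γ n hexp
  set Nt : ℕ := ∏ j ∈ A, r j with hNt
  set Dt : ℕ := ∏ j ∈ B, r j with hDt
  set W1 : ℕ := (∏ j ∈ A, r j ^ ζ j) * ∏ q ∈ K', q ^ (-n q).toNat with hW1
  set W2 : ℕ := (∏ j ∈ B, r j ^ ζ j) * ∏ q ∈ K', q ^ (n q).toNat with hW2
  have e1 : ∀ D ⊆ range J, ∏ j ∈ D, ∏ q ∈ K', q ^ γ j q = ∏ j ∈ D, c2 j := by
    intro D hD
    apply Finset.prod_congr rfl
    intro j hj
    exact (hc2eq j (Finset.mem_range.mp (hD hj))).symm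
  have e2 : ∀ D ⊆ range J, ∏ j ∈ D, (r j ^ (z0 + g * ζ j) * ∏ q ∈ K', q ^ β j q) = ∏ j ∈ D, c1 j := by
    intro D hD
    apply Finset.prod_congr rfl
    intro j hj
    exact (hc1eq j (Finset.mem_range.mp (hD hj))).symm
  rw [e1 A hA, e1 B hB, e2 A hA, e2 B hB] at hid
  -- positivity
  have hrpos : ∀ j < J, 0 < r j := fun j hj => (hall j hj).1.pos
  have hNt0 : 0 < Nt := Finset.prod_pos (fun j hj => hrpos j (hAJ j hj))
  have hDt0 : 0 < Dt := Finset.prod_pos (fun j hj => hrpos j (hBJ j hj))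
  have hW10 : 0 < W1 := Nat.mul_pos (Finset.prod_pos (fun j hj => pow_pos (hrpos j (hAJ j hj)) _))
    (Finset.prod_pos (fun q hq => pow_pos (hK'p q hq).pos _))
  have hW20 : 0 < W2 := Nat.mul_pos (Finset.prod_pos (fun j hj => pow_pos (hrpos j (hBJ j hj)) _))
    (Finset.prod_pos (fun q hq => pow_pos (hK'p q hq).pos _))
  -- prime to t
  have htW : ∀ t ∈ T, ∀ D ⊆ range J, ∀ f : ℕ → ℕ,
      ¬ t ∣ (∏ j ∈ D, r j ^ ζ j) * ∏ q ∈ K', q ^ f q := by
    intro t ht D hD f hd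
    have htp := hT t ht
    rcases (Nat.Prime.dvd_mul htp).mp hd with h6 | h6
    · refine pig_aux_prod t htp D (fun j => r j ^ ζ j) ?_ h6
      intro j hj hdj
      exact hrT j (Finset.mem_range.mp (hD hj)) t ht (htp.dvd_of_dvd_pow hdj)
    · refine pig_aux_prod t htp K' (fun q => q ^ f q) ?_ h6
      intro q hq hdq
      exact hK'T t ht q hq (htp.dvd_of_dvd_pow hdq)
  have htr : ∀ t ∈ T, ∀ D ⊆ range J, ¬ t ∣ ∏ j ∈ D, r j := by
    intro t ht D hD
    apply pig_aux_prod t (hT t ht)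
    intro j hj
    exact hrT j (Finset.mem_range.mp (hD hj)) t ht
  have htcc : ∀ t ∈ T, ∀ D ⊆ range J, ∀ s, s ≠ i → ¬ t ∣ ∏ j ∈ D, coord (v j) s := by
    intro t ht D hD s hs
    apply pig_aux_prod t (hT t ht)
    intro j hj
    exact htc j (Finset.mem_range.mp (hD hj)) t ht s hs
  -- the relation
  have hrel : ∀ t ∈ T, (t : ℤ) ^ x t ∣
      (Nt : ℤ) ^ z0 * (W1 : ℤ) ^ g - (Dt : ℤ) ^ z0 * (W2 : ℤ) ^ g := by
    intro t ht
    set s : ℤ := alg_sg i with hs
    have hs1 : s = 1 ∨ s = -1 := by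
      rw [hs, alg_sg]; split_ifs <;> simp
    have hcj : ∀ j < J, (t : ℤ) ^ x t ∣ (c1 j : ℤ) - s * (c2 j : ℤ) := by
      intro j hj
      have h3 := alg_rel (v j) i s1 s2 hs1i hs2i hs21
      have h4 : ((t ^ x t : ℕ) : ℤ) ∣ (coord (v j) i : ℤ) :=
        Int.natCast_dvd_natCast.mpr ((hsol j hj).dx t (hTK ht))
      rw [Nat.cast_pow] at h4
      exact h4.trans h3
    have h3 := alg_modEq ((t : ℤ) ^ x t) A (fun j => (c1 j : ℤ)) (fun j => (c2 j : ℤ)) s
      (fun j hj => hcj j (hAJ j hj))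
    have h4 := alg_modEq ((t : ℤ) ^ x t) B (fun j => (c1 j : ℤ)) (fun j => (c2 j : ℤ)) s
      (fun j hj => hcj j (hBJ j hj))
    have hsAB : s ^ A.card = s ^ B.card := by
      rcases hs1 with h | h
      · rw [h, one_pow, one_pow]
      · rw [h]
        rcases Nat.even_or_odd A.card with ha | ha
        · have hb : Even B.card := by
            have := (Nat.even_add.mp heven).mp ha; exact this
          rw [ha.neg_one_pow, hb.neg_one_pow]
        · have hb : Odd B.card := by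
            rw [← Nat.not_even_iff_odd] at ha ⊢
            intro hb
            exact ha ((Nat.even_add.mp heven).mpr hb)
          rw [ha.neg_one_pow, hb.neg_one_pow]
    set a1 : ℤ := ∏ j ∈ A, (c1 j : ℤ) with ha1
    set a2 : ℤ := ∏ j ∈ A, (c2 j : ℤ) with ha2
    set b1 : ℤ := ∏ j ∈ B, (c1 j : ℤ) with hb1
    set b2 : ℤ := ∏ j ∈ B, (c2 j : ℤ) with hb2
    have hidZ : a2 * b1 * ((Nt : ℤ) ^ z0 * (W1 : ℤ) ^ g) = b2 * a1 * ((Dt : ℤ) ^ z0 * (W2 : ℤ) ^ g) := by
      have h5 : (((∏ j ∈ A, c2 j) * (∏ j ∈ B, c1 j) * (Nt ^ z0 * W1 ^ g) : ℕ) : ℤ) =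
          (((∏ j ∈ B, c2 j) * (∏ j ∈ A, c1 j) * (Dt ^ z0 * W2 ^ g) : ℕ) : ℤ) := by
        rw [hid]
      rw [ha1, ha2, hb1, hb2]
      push_cast at h5
      exact h5
    have h6 : (t : ℤ) ^ x t ∣ b2 * a1 - a2 * b1 := by
      have h7 : b2 * a1 - a2 * b1 = b2 * (a1 - s ^ A.card * a2) - a2 * (b1 - s ^ B.card * b2) := by
        rw [hsAB]; ring
      rw [h7]
      exact dvd_sub (Dvd.dvd.mul_left h3 _) (Dvd.dvd.mul_left h4 _)
    have h8 : (t : ℤ) ^ x t ∣ (a2 * b1) *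
        ((Nt : ℤ) ^ z0 * (W1 : ℤ) ^ g - (Dt : ℤ) ^ z0 * (W2 : ℤ) ^ g) := by
      have h9 : (a2 * b1) * ((Nt : ℤ) ^ z0 * (W1 : ℤ) ^ g - (Dt : ℤ) ^ z0 * (W2 : ℤ) ^ g) =
          (b2 * a1 - a2 * b1) * ((Dt : ℤ) ^ z0 * (W2 : ℤ) ^ g) := by
        rw [mul_sub, hidZ]; ring
      rw [h9]
      exact Dvd.dvd.mul_right h6 _
    have h10 : IsCoprime ((t : ℤ) ^ x t) (a2 * b1) := by
      apply IsCoprime.pow_left
      have h11 : a2 * b1 = (((∏ j ∈ A, c2 j) * ∏ j ∈ B, c1 j : ℕ) : ℤ) := by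
        rw [ha2, hb1]; push_cast; rfl
      rw [h11, Nat.isCoprime_iff_coprime, Nat.Prime.coprime_iff_not_dvd (hT t ht)]
      intro hd
      rcases (Nat.Prime.dvd_mul (hT t ht)).mp hd with h12 | h12
      · exact htcc t ht A hA s2 hs2i h12
      · exact htcc t ht B hB s1 hs1i h12
    exact h10.dvd_of_dvd_mul_left h8
  have hcases : A.Nonempty ∨ B.Nonempty := Finset.union_nonempty.mp hne
  have hneq : Nt ≠ Dt := by
    intro h
    have hr' : ∀ j < J, (r j).Prime ∧ r j ∉ K' := fun j hj => ⟨(hall j hj).1, hrK' j hj⟩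
    rcases hcases with h3 | h3
    · have := alg_ne J K' r (fun _ => 1) hr' hK'p hinj A B hA hB hAB h3 (fun _ _ => le_rfl)
        (fun _ => 0) (fun _ => 0)
      apply this
      simp only [pow_one, pow_zero, Finset.prod_const_one, mul_one]
      exact h
    · have := alg_ne J K' r (fun _ => 1) hr' hK'p hinj B A hB hA hAB.symm h3 (fun _ _ => le_rfl)
        (fun _ => 0) (fun _ => 0)
      apply this
      simp only [pow_one, pow_zero, Finset.prod_const_one, mul_one]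
      exact h.symm
  -- heights
  have hcle : ∀ j < J, ∀ s, ((coord (v j) s : ℕ) : ℝ) ≤ Real.exp (2 * h0) := by
    intro j hj s
    have hs3 := hsol j hj
    have h3 : ((coord (v j) s : ℕ) : ℝ) ≤ (((v j).1 + (v j).2 : ℕ) : ℝ) := by
      exact_mod_cast alg_le (v j) s
    refine h3.trans ?_
    have h4 : (0 : ℝ) < (((v j).1 + (v j).2 : ℕ) : ℝ) := by
      have := hs3.tri.1
      exact_mod_cast (by omega : 0 < (v j).1 + (v j).2)
    rw [← Real.exp_log h4]
    exact Real.exp_le_exp.mpr hs3.up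
  have hh0 : 0 ≤ h0 := by
    have hs3 := hsol 0 hJpos
    have h3 := hs3.up
    have h4 : 0 ≤ hh (v 0) := by
      apply Real.log_nonneg
      have := hs3.tri.1
      exact_mod_cast (by omega : 1 ≤ (v 0).1 + (v 0).2)
    linarith
  have hL0 : 0 ≤ L := by
    have h3 := (hall 0 hJpos).2.2.1
    have h4 : 0 ≤ Real.log (r 0) := Real.log_nonneg (by exact_mod_cast (hrpos 0 hJpos))
    linarith
  have hcardAB : A.card + B.card ≤ J := by
    rw [← Finset.card_union_of_disjoint hAB]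
    calc (A ∪ B).card ≤ (range J).card := Finset.card_le_card (Finset.union_subset hA hB)
      _ = J := Finset.card_range J
  have hrle : ∀ j < J, ((r j : ℕ) : ℝ) ≤ Real.exp L := by
    intro j hj
    rw [← Real.exp_log (show (0 : ℝ) < (r j : ℝ) by exact_mod_cast hrpos j hj)]
    exact Real.exp_le_exp.mpr (hall j hj).2.2.1
  have hprodr : ∀ D ⊆ range J, ((∏ j ∈ D, r j : ℕ) : ℝ) ≤ Real.exp (J * L) := by
    intro D hD
    rw [Nat.cast_prod]
    refine (alg_prod_le D _ (Real.exp L) (fun _ _ => Nat.cast_nonneg _)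
      (fun j hj => hrle j (Finset.mem_range.mp (hD hj)))).trans ?_
    rw [← Real.exp_nat_mul]
    apply Real.exp_le_exp.mpr
    apply mul_le_mul_of_nonneg_right _ hL0
    have : D.card ≤ J := by
      calc D.card ≤ (range J).card := Finset.card_le_card hD
        _ = J := Finset.card_range J
    exact_mod_cast this
  have hmain : ∀ A' B' : Finset ℕ, A' ⊆ range J → B' ⊆ range J → A'.card + B'.card ≤ J →
      ∀ f : ℕ → ℕ, (∀ q ∈ K', g * f q ≤ ∑ j ∈ A', β j q + ∑ j ∈ B', γ j q) →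
      (((∏ j ∈ A', r j ^ ζ j) * ∏ q ∈ K', q ^ f q : ℕ) : ℝ) ≤ Real.exp (4 * J * h0 / g) := by
    intro A' B' hA' hB' hcd f hf
    set W : ℕ := (∏ j ∈ A', r j ^ ζ j) * ∏ q ∈ K', q ^ f q with hW
    have hWpos : 0 < W := Nat.mul_pos
      (Finset.prod_pos (fun j hj => pow_pos (hrpos j (Finset.mem_range.mp (hA' hj))) _))
      (Finset.prod_pos (fun q hq => pow_pos (hK'p q hq).pos _))
    have h3 : W ^ g ≤ (∏ j ∈ A', c1 j) * ∏ j ∈ B', c2 j := by
      have h4 : (∏ j ∈ A', c1 j) * ∏ j ∈ B', c2 j = (∏ j ∈ A', r j ^ (z0 + g * ζ j)) *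
          ∏ q ∈ K', q ^ (∑ j ∈ A', β j q + ∑ j ∈ B', γ j q) := by
        rw [← e2 A' hA', ← e1 B' hB', Finset.prod_mul_distrib, mul_assoc]
        congr 1
        rw [Finset.prod_comm, Finset.prod_comm (s := B'), ← Finset.prod_mul_distrib]
        apply Finset.prod_congr rfl
        intro q _
        rw [Finset.prod_pow_eq_pow_sum, Finset.prod_pow_eq_pow_sum, ← pow_add]
      rw [h4, hW, mul_pow, ← Finset.prod_pow, ← Finset.prod_pow]
      apply Nat.mul_le_mul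
      · apply Finset.prod_le_prod' 
        intro j hj
        rw [← pow_mul]
        exact Nat.pow_le_pow_right (hrpos j (Finset.mem_range.mp (hA' hj))) (by
          rw [mul_comm]; omega)
      · apply Finset.prod_le_prod'
        intro q hq
        rw [← pow_mul]
        exact Nat.pow_le_pow_right (hK'p q hq).pos (by rw [mul_comm]; exact hf q hq)
    have h5 : ((W : ℕ) : ℝ) ^ g ≤ Real.exp (2 * h0) ^ J := by
      have h6 : ((W : ℕ) : ℝ) ^ g ≤ (((∏ j ∈ A', c1 j) * ∏ j ∈ B', c2 j : ℕ) : ℝ) := by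
        exact_mod_cast h3
      refine h6.trans ?_
      rw [Nat.cast_mul, Nat.cast_prod, Nat.cast_prod]
      calc (∏ j ∈ A', ((c1 j : ℕ) : ℝ)) * ∏ j ∈ B', ((c2 j : ℕ) : ℝ)
          ≤ Real.exp (2 * h0) ^ A'.card * Real.exp (2 * h0) ^ B'.card := by
            apply mul_le_mul
            · exact alg_prod_le _ _ _ (fun _ _ => Nat.cast_nonneg _)
                (fun j hj => hcle j (Finset.mem_range.mp (hA' hj)) s1)
            · exact alg_prod_le _ _ _ (fun _ _ => Nat.cast_nonneg _)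
                (fun j hj => hcle j (Finset.mem_range.mp (hB' hj)) s2)
            · positivity
            · positivity
        _ = Real.exp (2 * h0) ^ (A'.card + B'.card) := by rw [pow_add]
        _ ≤ Real.exp (2 * h0) ^ J :=
            pow_le_pow_right₀ (Real.one_le_exp (by linarith)) hcd
    have hW1' : (0 : ℝ) < (W : ℝ) := by exact_mod_cast hWpos
    have hgR : (0 : ℝ) < g := by exact_mod_cast hg
    have h7 : (g : ℝ) * Real.log W ≤ J * (2 * h0) := by
      have h8 := Real.log_le_log (pow_pos hW1' g) h5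
      rw [Real.log_pow, Real.log_pow, Real.log_exp] at h8
      exact h8
    rw [← Real.exp_log hW1']
    apply Real.exp_le_exp.mpr
    rw [le_div_iff₀ hgR]
    have hJ0 : (0 : ℝ) ≤ J := Nat.cast_nonneg _
    have h9 : 0 ≤ (J : ℝ) * h0 := mul_nonneg hJ0 hh0
    nlinarith
  have hexp' : ∀ q ∈ K', (g : ℤ) * n q = (∑ j ∈ A, (γ j q : ℤ) - ∑ j ∈ A, (β j q : ℤ)) -
      (∑ j ∈ B, (γ j q : ℤ) - ∑ j ∈ B, (β j q : ℤ)) := by
    intro q hq
    rw [← hexp q hq, Finset.sum_sub_distrib, Finset.sum_sub_distrib]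
  refine ⟨Nt, Dt, W1, W2, ⟨hNt0, hDt0, hW10, hW20, hneq, hT, fun t ht => htr t ht A hA,
    fun t ht => htr t ht B hB, fun t ht => htW t ht A hA _, fun t ht => htW t ht B hB _, ?_, ?_,
    hrel⟩, ?_, hprodr A hA, hprodr B hB, ?_, ?_⟩
  · intro t ht
    have := hcr t ht
    rw [hNt, hDt]
    push_cast
    exact this
  · intro t ht
    have := hcw t ht
    rw [hW1, hW2]
    push_cast
    exact this
  · intro hz0
    have hζ1 : ∀ j < J, 1 ≤ ζ j := by
      intro j hj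
      have h3 := (hall j hj).2.2.2.2
      rw [hz0] at h3
      have h4 : 1 ≤ (c1 j).factorization (r j) :=
        (Nat.Prime.dvd_iff_one_le_factorization (hall j hj).1 (hc1pos j hj).ne').mp (hsol j hj).dv
      have h5 := Nat.dvd_of_mod_eq_zero h3
      exact Nat.div_pos (Nat.le_of_dvd h4 h5) hg
    have hr' : ∀ j < J, (r j).Prime ∧ r j ∉ K' := fun j hj => ⟨(hall j hj).1, hrK' j hj⟩
    rcases hcases with h3 | h3
    · exact alg_ne J K' r ζ hr' hK'p hinj A B hA hB hAB h3 hζ1 _ _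
    · exact (alg_ne J K' r ζ hr' hK'p hinj B A hB hA hAB.symm h3 hζ1 _ _).symm
  · apply hmain A B hA hB hcardAB
    intro q hq
    have h3 := hexp' q hq
    have hb : (0 : ℤ) ≤ ∑ j ∈ A, (β j q : ℤ) := Finset.sum_nonneg (fun _ _ => Int.natCast_nonneg _)
    have hc : (0 : ℤ) ≤ ∑ j ∈ B, (γ j q : ℤ) := Finset.sum_nonneg (fun _ _ => Int.natCast_nonneg _)
    have hd : (0 : ℤ) ≤ ∑ j ∈ A, (γ j q : ℤ) := Finset.sum_nonneg (fun _ _ => Int.natCast_nonneg _)
    have he : (0 : ℤ) ≤ ∑ j ∈ B, (β j q : ℤ) := Finset.sum_nonneg (fun _ _ => Int.natCast_nonneg _)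
    have h4 : (g : ℤ) * ((-n q).toNat : ℤ) ≤ ∑ j ∈ A, (β j q : ℤ) + ∑ j ∈ B, (γ j q : ℤ) := by
      rcases le_total (n q) 0 with h | h
      · rw [Int.toNat_of_nonneg (by omega)]
        linarith
      · rw [Int.toNat_of_nonpos (by omega)]
        simp only [Nat.cast_zero, mul_zero]
        omega
    have h5 : ((g * (-n q).toNat : ℕ) : ℤ) ≤ ((∑ j ∈ A, β j q + ∑ j ∈ B, γ j q : ℕ) : ℤ) := by
      push_cast; exact h4
    exact_mod_cast h5
  · apply hmain B A hB hA (by omega)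
    intro q hq
    have h3 := hexp' q hq
    have hb : (0 : ℤ) ≤ ∑ j ∈ A, (β j q : ℤ) := Finset.sum_nonneg (fun _ _ => Int.natCast_nonneg _)
    have hc : (0 : ℤ) ≤ ∑ j ∈ B, (γ j q : ℤ) := Finset.sum_nonneg (fun _ _ => Int.natCast_nonneg _)
    have hd : (0 : ℤ) ≤ ∑ j ∈ A, (γ j q : ℤ) := Finset.sum_nonneg (fun _ _ => Int.natCast_nonneg _)
    have he : (0 : ℤ) ≤ ∑ j ∈ B, (β j q : ℤ) := Finset.sum_nonneg (fun _ _ => Int.natCast_nonneg _)
    have h4 : (g : ℤ) * ((n q).toNat : ℤ) ≤ ∑ j ∈ B, (β j q : ℤ) + ∑ j ∈ A, (γ j q : ℤ) := by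
      rcases le_total 0 (n q) with h | h
      · rw [Int.toNat_of_nonneg h]
        linarith
      · rw [Int.toNat_of_nonpos h]
        simp only [Nat.cast_zero, mul_zero]
        omega
    have h5 : ((g * (n q).toNat : ℕ) : ℤ) ≤ ((∑ j ∈ B, β j q + ∑ j ∈ A, γ j q : ℕ) : ℤ) := by
      push_cast; exact h4
    exact_mod_cast h5

end Pool.ALLH
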