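import Pool.Agent.H47.ALLH.Stmts

set_option autoImplicit false

namespace Pool.ALLH

open Finset

lemma pig_aux_unit (t : ℕ) (k : ℕ) (ht : t.Prime) (n : ℕ) (h : ¬ t ∣ n) :
    IsUnit ((n : ℕ) : ZMod (t ^ k)) := by
  rw [ZMod.isUnit_iff_coprime]
  apply Nat.Coprime.pow_right
  exact ((Nat.Prime.coprime_iff_not_dvd ht).mpr h).symm

lemma pig_aux_prod (t : ℕ) (ht : t.Prime) (S : Finset ℕ) (f : ℕ → ℕ) (h : ∀ j ∈ S, ¬ t ∣ f j) :
    ¬ t ∣ ∏ j ∈ S, f j := by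
  intro hd
  obtain ⟨j, hj, hdj⟩ := (Prime.dvd_finsetProd_iff ht.prime _).mp hd
  exact h j hj hdj

theorem pig_thm : S_PIG := by
  classical
  intro J g K T m r ζ e hg hT hr hq hlt
  have : NeZero g := ⟨hg.ne'⟩
  have : ∀ t : ↥T, NeZero ((t : ℕ) ^ m t) := fun t => ⟨pow_ne_zero _ (hT t t.2).ne_zero⟩
  have : ∀ t : ↥T, NeZero (t : ℕ) := fun t => ⟨(hT t t.2).ne_zero⟩
  set B : ℕ → ℤ := fun q => ∑ j ∈ range J, |e j q| with hB
  set fl : Finset ℕ → ℕ → ℤ := fun S q => (∑ j ∈ S, e j q) / (g : ℤ) with hfl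
  have hflB : ∀ S ⊆ range J, ∀ q, fl S q ≤ B q := by
    intro S hS q
    have h1 : ∑ j ∈ S, e j q ≤ B q := by
      calc ∑ j ∈ S, e j q ≤ ∑ j ∈ S, |e j q| := Finset.sum_le_sum (fun j _ => le_abs_self _)
        _ ≤ B q := Finset.sum_le_sum_of_subset_of_nonneg hS (fun j _ _ => abs_nonneg _)
    have hB0 : 0 ≤ B q := Finset.sum_nonneg (fun j _ => abs_nonneg _)
    simp only [hfl]
    apply Int.ediv_le_of_le_mul (by exact_mod_cast hg)
    have hg1 : (1 : ℤ) ≤ g := by exact_mod_cast hg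
    nlinarith
  set Φ : Finset ℕ → ZMod 2 × (↥K → ZMod g) × ((t : ↥T) → ZMod ((t : ℕ) ^ m t)) ×
      ((t : ↥T) → ZMod (t : ℕ)) := fun S =>
    (((S.card : ℕ) : ZMod 2), fun q => ((∑ j ∈ S, e j q : ℤ) : ZMod g),
      fun t => ((∏ j ∈ S, r j : ℕ) : ZMod ((t : ℕ) ^ m t)),
      fun t => (((∏ j ∈ S, r j ^ ζ j) * ∏ q ∈ K, q ^ (B q - fl S q).toNat : ℕ) : ZMod (t : ℕ)))
    with hΦ
  have hcard : Fintype.card (ZMod 2 × (↥K → ZMod g) × ((t : ↥T) → ZMod ((t : ℕ) ^ m t)) ×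
      ((t : ↥T) → ZMod (t : ℕ))) = 2 * g ^ K.card * ∏ t ∈ T, t ^ (m t + 1) := by
    rw [Fintype.card_prod, Fintype.card_prod, Fintype.card_prod, Fintype.card_pi, Fintype.card_pi,
      Fintype.card_pi]
    simp only [ZMod.card]
    rw [Finset.prod_const, Finset.card_univ, Fintype.card_coe,
      Finset.prod_coe_sort T (fun t => t ^ m t), Finset.prod_coe_sort T (fun t => t)]
    have : ∏ t ∈ T, t ^ (m t + 1) = (∏ t ∈ T, t ^ m t) * ∏ t ∈ T, t := by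
      rw [← Finset.prod_mul_distrib]
      apply Finset.prod_congr rfl
      intro t _
      rw [pow_succ]
    rw [this]
    ring
  have hlt2 : (Finset.univ : Finset (ZMod 2 × (↥K → ZMod g) ×
      ((t : ↥T) → ZMod ((t : ℕ) ^ m t)) × ((t : ↥T) → ZMod (t : ℕ)))).card <
      ((range J).powerset).card := by
    rw [Finset.card_univ, hcard, Finset.card_powerset, Finset.card_range]
    exact hlt
  obtain ⟨S₁, hS₁, S₂, hS₂, hne, heq⟩ := Finset.exists_ne_map_eq_of_card_lt_of_maps_to hlt2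
    (f := Φ) (fun S _ => Finset.mem_coe.mpr (Finset.mem_univ _))
  rw [Finset.mem_powerset] at hS₁ hS₂
  have h1 : S₁ = (S₁ \ S₂) ∪ (S₁ ∩ S₂) := by
    rw [Finset.sdiff_union_inter]
  have h2 : S₂ = (S₂ \ S₁) ∪ (S₁ ∩ S₂) := by
    rw [Finset.inter_comm, Finset.sdiff_union_inter]
  have hd1 : Disjoint (S₁ \ S₂) (S₁ ∩ S₂) := Finset.disjoint_sdiff_inter _ _
  have hd2 : Disjoint (S₂ \ S₁) (S₁ ∩ S₂) := by
    rw [Finset.inter_comm]; exact Finset.disjoint_sdiff_inter _ _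
  have hc1 : S₁.card = (S₁ \ S₂).card + (S₁ ∩ S₂).card := by
    rw [← Finset.card_union_of_disjoint hd1, ← h1]
  have hc2 : S₂.card = (S₂ \ S₁).card + (S₁ ∩ S₂).card := by
    rw [← Finset.card_union_of_disjoint hd2, ← h2]
  have hmodg : ∀ q ∈ K, (g : ℤ) ∣ (∑ j ∈ S₁, e j q) - ∑ j ∈ S₂, e j q := by
    intro q hqK
    have e1 := congrFun (congrArg (fun z => z.2.1) heq) ⟨q, hqK⟩
    simp only [hΦ] at e1
    rw [ZMod.intCast_eq_intCast_iff_dvd_sub] at e1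
    rw [← dvd_neg, neg_sub]
    exact e1
  have hflsub : ∀ q ∈ K, (∑ j ∈ S₁, e j q) - ∑ j ∈ S₂, e j q = g * (fl S₁ q - fl S₂ q) := by
    intro q hqK
    have h3 := hmodg q hqK
    have h4 : (∑ j ∈ S₁, e j q) % (g : ℤ) = (∑ j ∈ S₂, e j q) % (g : ℤ) :=
      Int.emod_eq_emod_iff_emod_sub_eq_zero.mpr (Int.emod_eq_zero_of_dvd h3)
    have h5 := Int.mul_ediv_add_emod (∑ j ∈ S₁, e j q) (g : ℤ)
    have h6 := Int.mul_ediv_add_emod (∑ j ∈ S₂, e j q) (g : ℤ)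
    simp only [hfl]
    linear_combination (-1 : ℤ) * h5 + h6 + h4
  refine ⟨S₁ \ S₂, S₂ \ S₁, fun q => fl S₁ q - fl S₂ q, (Finset.sdiff_subset).trans hS₁,
    (Finset.sdiff_subset).trans hS₂, disjoint_sdiff_sdiff, ?_, ?_, ?_, ?_, ?_⟩
  · by_contra hcon
    rw [Finset.not_nonempty_iff_eq_empty, Finset.union_eq_empty] at hcon
    apply hne
    apply Finset.Subset.antisymm
    · exact Finset.sdiff_eq_empty_iff_subset.mp hcon.1
    · exact Finset.sdiff_eq_empty_iff_subset.mp hcon.2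
  · have e1 := congrArg (fun z => z.1) heq
    simp only [hΦ] at e1
    rw [ZMod.natCast_eq_natCast_iff] at e1
    have e2 : S₁.card % 2 = S₂.card % 2 := e1
    rw [Nat.even_iff]
    omega
  · intro t ht
    have e1 := congrFun (congrArg (fun z => z.2.2.1) heq) ⟨t, ht⟩
    simp only [hΦ] at e1
    have e2 : ∏ j ∈ S₁, r j = (∏ j ∈ S₁ \ S₂, r j) * ∏ j ∈ S₁ ∩ S₂, r j := by
      rw [← Finset.prod_union hd1, ← h1]
    have e3 : ∏ j ∈ S₂, r j = (∏ j ∈ S₂ \ S₁, r j) * ∏ j ∈ S₁ ∩ S₂, r j := by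
      rw [← Finset.prod_union hd2, ← h2]
    rw [e2, e3, Nat.cast_mul, Nat.cast_mul] at e1
    have hu : IsUnit (((∏ j ∈ S₁ ∩ S₂, r j : ℕ)) : ZMod (t ^ m t)) := by
      apply pig_aux_unit t (m t) (hT t ht)
      apply pig_aux_prod t (hT t ht)
      intro j hj
      exact hr t ht j (Finset.mem_range.mp (hS₁ (Finset.mem_inter.mp hj).1))
    have e4 := hu.mul_right_cancel e1
    have e5 : (((∏ j ∈ S₁ \ S₂, r j : ℕ) : ℤ) : ZMod (t ^ m t)) =
        (((∏ j ∈ S₂ \ S₁, r j : ℕ) : ℤ) : ZMod (t ^ m t)) := by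
      rw [Int.cast_natCast, Int.cast_natCast]; exact e4
    rw [ZMod.intCast_eq_intCast_iff_dvd_sub] at e5
    rw [← dvd_neg, neg_sub]
    push_cast at e5
    exact e5
  · intro q hqK
    have e2 : ∑ j ∈ S₁, e j q = ∑ j ∈ S₁ \ S₂, e j q + ∑ j ∈ S₁ ∩ S₂, e j q := by
      rw [← Finset.sum_union hd1, ← h1]
    have e3 : ∑ j ∈ S₂, e j q = ∑ j ∈ S₂ \ S₁, e j q + ∑ j ∈ S₁ ∩ S₂, e j q := by
      rw [← Finset.sum_union hd2, ← h2]
    have e4 := hflsub q hqK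
    rw [e2, e3] at e4
    linear_combination e4
  · intro t ht
    have htp := hT t ht
    have : Fact t.Prime := ⟨htp⟩
    have e1 := congrFun (congrArg (fun z => z.2.2.2) heq) ⟨t, ht⟩
    simp only [hΦ] at e1
    have e2 : ∏ j ∈ S₁, r j ^ ζ j = (∏ j ∈ S₁ \ S₂, r j ^ ζ j) * ∏ j ∈ S₁ ∩ S₂, r j ^ ζ j := by
      rw [← Finset.prod_union hd1, ← h1]
    have e3 : ∏ j ∈ S₂, r j ^ ζ j = (∏ j ∈ S₂ \ S₁, r j ^ ζ j) * ∏ j ∈ S₁ ∩ S₂, r j ^ ζ j := by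
      rw [← Finset.prod_union hd2, ← h2]
    set mx : ℕ → ℤ := fun q => max (fl S₁ q) (fl S₂ q) with hmx
    have e4 : ∏ q ∈ K, q ^ (B q - fl S₁ q).toNat = (∏ q ∈ K, q ^ (B q - mx q).toNat) *
        ∏ q ∈ K, q ^ (-(fl S₁ q - fl S₂ q)).toNat := by
      rw [← Finset.prod_mul_distrib]
      apply Finset.prod_congr rfl
      intro q _
      rw [← pow_add]
      congr 1
      have b1 := hflB S₁ hS₁ q
      have b2 := hflB S₂ hS₂ q
      simp only [hmx]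
      omega
    have e5 : ∏ q ∈ K, q ^ (B q - fl S₂ q).toNat = (∏ q ∈ K, q ^ (B q - mx q).toNat) *
        ∏ q ∈ K, q ^ (fl S₁ q - fl S₂ q).toNat := by
      rw [← Finset.prod_mul_distrib]
      apply Finset.prod_congr rfl
      intro q _
      rw [← pow_add]
      congr 1
      have b1 := hflB S₁ hS₁ q
      have b2 := hflB S₂ hS₂ q
      simp only [hmx]
      omega
    rw [e2, e3, e4, e5] at e1
    set Z1 : ℕ := ∏ j ∈ S₁ ∩ S₂, r j ^ ζ j with hZ1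
    set Z2 : ℕ := ∏ q ∈ K, q ^ (B q - mx q).toNat with hZ2
    set A1 : ℕ := ∏ j ∈ S₁ \ S₂, r j ^ ζ j with hA1
    set A2 : ℕ := ∏ j ∈ S₂ \ S₁, r j ^ ζ j with hA2
    set Q1 : ℕ := ∏ q ∈ K, q ^ (-(fl S₁ q - fl S₂ q)).toNat with hQ1
    set Q2 : ℕ := ∏ q ∈ K, q ^ (fl S₁ q - fl S₂ q).toNat with hQ2
    have hZ1n : ¬ t ∣ Z1 := by
      apply pig_aux_prod t htp
      intro j hj hd
      exact hr t ht j (Finset.mem_range.mp (hS₁ (Finset.mem_inter.mp hj).1)) (htp.dvd_of_dvd_pow hd)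
    have hZ2n : ¬ t ∣ Z2 := by
      apply pig_aux_prod t htp
      intro q hqK hd
      exact hq t ht q hqK (htp.dvd_of_dvd_pow hd)
    have hz1 : ((Z1 : ℕ) : ZMod t) ≠ 0 := by
      intro h; exact hZ1n ((ZMod.natCast_eq_zero_iff _ _).mp h)
    have hz2 : ((Z2 : ℕ) : ZMod t) ≠ 0 := by
      intro h; exact hZ2n ((ZMod.natCast_eq_zero_iff _ _).mp h)
    push_cast at e1
    have e6 : (A1 : ZMod t) * (Q1 : ZMod t) = (A2 : ZMod t) * (Q2 : ZMod t) := by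
      apply mul_left_cancel₀ hz1
      apply mul_left_cancel₀ hz2
      linear_combination e1
    have e7 : (((A1 * Q1 : ℕ) : ℤ) : ZMod t) = (((A2 * Q2 : ℕ) : ℤ) : ZMod t) := by
      push_cast; exact e6
    rw [ZMod.intCast_eq_intCast_iff_dvd_sub] at e7
    rw [← dvd_neg, neg_sub]
    simp only [hA1, hA2, hQ1, hQ2] at e7
    push_cast at e7
    exact e7

end Pool.ALLH
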